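import Mathlib

set_option autoImplicit false

namespace Pool.Agent.Helper47.Diss

open Finset

/-- Distance to the nearest integer. -/
noncomputable def nr (y : ℝ) : ℝ := |y - round y|

theorem nr_nonneg (y : ℝ) : 0 ≤ nr y := abs_nonneg _

theorem nr_le_abs_sub (y : ℝ) (z : ℤ) : nr y ≤ |y - z| := round_le y z

theorem nr_le_abs (y : ℝ) : nr y ≤ |y| := by
  have := nr_le_abs_sub y 0
  simpa using this

theorem nr_int (z : ℤ) : nr (z : ℝ) = 0 := by
  apply le_antisymm _ (nr_nonneg _)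
  have := nr_le_abs_sub (z : ℝ) z
  simpa using this

theorem nr_add_le (x y : ℝ) : nr (x + y) ≤ nr x + nr y := by
  have h := nr_le_abs_sub (x + y) (round x + round y)
  refine h.trans ?_
  have h2 : x + y - ((round x + round y : ℤ) : ℝ) = (x - round x) + (y - round y) := by
    push_cast; ring
  rw [h2]
  exact abs_add_le _ _

theorem nr_neg_le (x : ℝ) : nr (-x) ≤ nr x := by
  have h := nr_le_abs_sub (-x) (-round x)
  refine h.trans ?_
  have h2 : -x - ((-round x : ℤ) : ℝ) = -(x - round x) := by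
    push_cast; ring
  rw [h2, abs_neg]
  exact le_refl _

theorem nr_neg (x : ℝ) : nr (-x) = nr x :=
  le_antisymm (nr_neg_le x) (by simpa using nr_neg_le (-x))

theorem nr_natCast_mul_le (g : ℕ) (x : ℝ) : nr (g * x) ≤ g * nr x := by
  have h := nr_le_abs_sub (g * x) (g * round x)
  refine h.trans ?_
  have h2 : (g : ℝ) * x - (((g : ℤ) * round x : ℤ) : ℝ) = g * (x - round x) := by
    push_cast; ring
  rw [h2, abs_mul, Nat.abs_cast]
  exact le_refl _

/-- A divisibility chain. -/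
structure Chain (n : ℕ → ℕ) : Prop where
  pos : 0 < n 0
  dvd : ∀ b, n b ∣ n (b + 1)
  lt : ∀ b, n b < n (b + 1)

/-- The quotient `n (b+1) / n b`. -/
def gq (n : ℕ → ℕ) (b : ℕ) : ℕ := n (b + 1) / n b

/-- `Q n b x = g_b ‖x / n_{b+1}‖`. -/
noncomputable def Q (n : ℕ → ℕ) (b : ℕ) (x : ℤ) : ℝ := (gq n b : ℝ) * nr ((x : ℝ) / (n (b + 1) : ℝ))

section

variable {n : ℕ → ℕ} (hn : Chain n)

include hn

theorem Chain.strictMono : StrictMono n := strictMono_nat_of_lt_succ hn.lt

theorem Chain.npos (b : ℕ) : 0 < n b := lt_of_lt_of_le hn.pos (hn.strictMono.monotone (Nat.zero_le b))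

theorem Chain.dvd_of_le {a b : ℕ} (h : a ≤ b) : n a ∣ n b := by
  induction h with
  | refl => exact dvd_rfl
  | step _ ih => exact ih.trans (hn.dvd _)

theorem Chain.gq_mul (b : ℕ) : gq n b * n b = n (b + 1) := Nat.div_mul_cancel (hn.dvd b)

theorem Chain.two_le_gq (b : ℕ) : 2 ≤ gq n b := by
  by_contra h
  push Not at h
  have h1 := hn.gq_mul b
  have h2 := hn.lt b
  have h3 := hn.npos b
  have : gq n b ≤ 1 := by omega
  nlinarith

theorem Chain.pow_mul_le (p b : ℕ) (h : p ≤ b) : 2 ^ (b - p) * n p ≤ n b := by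
  induction b, h using Nat.le_induction with
  | base => simp
  | succ b hb ih =>
    have h1 := hn.gq_mul b
    have h2 := hn.two_le_gq b
    have h3 : b + 1 - p = (b - p) + 1 := by omega
    rw [h3, pow_succ]
    calc 2 ^ (b - p) * 2 * n p = 2 * (2 ^ (b - p) * n p) := by ring
      _ ≤ 2 * n b := by omega
      _ ≤ gq n b * n b := Nat.mul_le_mul_right _ h2
      _ = n (b + 1) := h1

omit hn in
theorem Q_nonneg (b : ℕ) (x : ℤ) : 0 ≤ Q n b x :=
  mul_nonneg (Nat.cast_nonneg _) (nr_nonneg _)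

omit hn in
theorem Q_add_le (b : ℕ) (x y : ℤ) : Q n b (x + y) ≤ Q n b x + Q n b y := by
  unfold Q
  rw [← mul_add]
  apply mul_le_mul_of_nonneg_left _ (Nat.cast_nonneg _)
  push_cast
  rw [add_div]
  exact nr_add_le _ _

omit hn in
theorem Q_neg (b : ℕ) (x : ℤ) : Q n b (-x) = Q n b x := by
  unfold Q
  push_cast
  rw [neg_div, nr_neg]

omit hn in
theorem Q_zero (b : ℕ) : Q n b 0 = 0 := by
  unfold Q
  have : nr ((0:ℤ):ℝ) = 0 := nr_int 0
  simp at this
  simp [this]

omit hn in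
theorem Q_sum_le {κ : Type*} (b : ℕ) (s : Finset κ) (f : κ → ℤ) :
    Q n b (∑ i ∈ s, f i) ≤ ∑ i ∈ s, Q n b (f i) := by
  classical
  induction s using Finset.induction_on with
  | empty => simp [Q_zero]
  | insert a s ha ih =>
    rw [Finset.sum_insert ha, Finset.sum_insert ha]
    exact (Q_add_le b _ _).trans (by linarith)

/-- The weight of a term `± n p` at place `b`. -/
noncomputable def wt (p b : ℕ) : ℝ := if p ≤ b then (1 / 2 : ℝ) ^ (b - p) else 0

omit hn in
theorem wt_nonneg (p b : ℕ) : 0 ≤ wt p b := by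
  unfold wt
  split_ifs <;> positivity

theorem Q_term_le (p b : ℕ) : Q n b ((n p : ℕ) : ℤ) ≤ wt p b := by
  unfold wt
  split_ifs with h
  · have h1 := hn.pow_mul_le p b h
    have h2 := hn.gq_mul b
    have h3 : (0:ℝ) < n b := by exact_mod_cast hn.npos b
    have h4 : (0:ℝ) < n (b+1) := by exact_mod_cast hn.npos (b+1)
    unfold Q
    have h5 : nr ((((n p : ℕ) : ℤ) : ℝ) / (n (b + 1) : ℝ)) ≤ (n p : ℝ) / n (b+1) := by
      refine (nr_le_abs _).trans ?_
      rw [abs_of_nonneg]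
      · simp
      · positivity
    refine (mul_le_mul_of_nonneg_left h5 (Nat.cast_nonneg _)).trans ?_
    have h6 : (gq n b : ℝ) * n b = n (b+1) := by exact_mod_cast h2
    have h7 : (gq n b : ℝ) * ((n p : ℝ) / n (b+1)) = n p / n b := by
      rw [← h6]
      have : (gq n b : ℝ) ≠ 0 := by
        have := hn.two_le_gq b
        have : (2:ℝ) ≤ gq n b := by exact_mod_cast this
        linarith
      field_simp
    rw [h7, div_le_iff₀ h3, one_div, inv_pow]
    have h8 : (2:ℝ) ^ (b - p) * n p ≤ n b := by exact_mod_cast h1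
    rw [← div_eq_inv_mul, le_div_iff₀ (by positivity)]
    linarith
  · have h1 : n (b+1) ∣ n p := hn.dvd_of_le (by omega)
    obtain ⟨k, hk⟩ := h1
    unfold Q
    have h4 : (n (b+1) : ℝ) ≠ 0 := by
      have := hn.npos (b+1)
      positivity
    have : (((n p : ℕ) : ℤ) : ℝ) / (n (b + 1) : ℝ) = ((k : ℤ) : ℝ) := by
      rw [hk]
      push_cast
      field_simp
    rw [this, nr_int, mul_zero]

/-- `digit m b x`: the `b`-th digit of the (balanced) expansion of `x`. -/
noncomputable def mdig (n : ℕ → ℕ) (b : ℕ) (x : ℤ) : ℤ := round ((x : ℝ) / (n b : ℝ))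

noncomputable def dig (n : ℕ → ℕ) (b : ℕ) (x : ℤ) : ℤ := mdig n b x - gq n b * mdig n (b + 1) x

theorem abs_dig_le (b : ℕ) (x : ℤ) : |(dig n b x : ℝ)| ≤ 2 * Q n b x := by
  have h2 := hn.gq_mul b
  have h3 : (0:ℝ) < n b := by exact_mod_cast hn.npos b
  have h4 : (0:ℝ) < n (b+1) := by exact_mod_cast hn.npos (b+1)
  have h6 : (gq n b : ℝ) * n b = n (b+1) := by exact_mod_cast h2
  have h5 : (x : ℝ) / n b = gq n b * ((x : ℝ) / n (b+1)) := by
    rw [← h6]
    have : (gq n b : ℝ) ≠ 0 := by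
      have := hn.two_le_gq b
      have : (2:ℝ) ≤ gq n b := by exact_mod_cast this
      linarith
    field_simp
  have e : (dig n b x : ℝ) = -((x : ℝ) / n b - round ((x : ℝ) / n b))
      + gq n b * ((x : ℝ) / n (b+1) - round ((x : ℝ) / n (b+1))) := by
    unfold dig mdig
    push_cast
    rw [mul_sub, ← h5]
    ring
  have h7 : |(dig n b x : ℝ)| ≤ nr ((x : ℝ) / n b) + gq n b * nr ((x : ℝ) / n (b+1)) := by
    rw [e]
    refine (abs_add_le _ _).trans ?_
    rw [abs_neg, abs_mul, Nat.abs_cast]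
    exact le_refl _
  have h8 : nr ((x : ℝ) / n b) ≤ gq n b * nr ((x : ℝ) / n (b+1)) := by
    rw [h5]
    exact nr_natCast_mul_le _ _
  unfold Q
  linarith

theorem half_le_Q (b : ℕ) (x : ℤ) (h : dig n b x ≠ 0) : 1 / 2 ≤ Q n b x := by
  have h1 := abs_dig_le hn b x
  have h2 : (1 : ℝ) ≤ |(dig n b x : ℝ)| := by
    have : (1 : ℤ) ≤ |dig n b x| := Int.one_le_abs h
    exact_mod_cast this
  linarith

theorem sum_dig (x : ℤ) (hx : (n 0 : ℤ) ∣ x) (K : ℕ) :
    ∑ b ∈ range K, dig n b x * n b = x - mdig n K x * n K := by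
  induction K with
  | zero =>
    obtain ⟨k, rfl⟩ := hx
    have h0 : (n 0 : ℝ) ≠ 0 := by
      have := hn.pos
      positivity
    have : mdig n 0 ((n 0 : ℤ) * k) = k := by
      unfold mdig
      have : ((((n 0 : ℤ) * k : ℤ)) : ℝ) / (n 0 : ℝ) = (k : ℝ) := by
        push_cast
        field_simp
      rw [this, round_intCast]
    rw [this]
    simp
    ring
  | succ K ih =>
    rw [Finset.sum_range_succ, ih]
    unfold dig
    have h1 := hn.gq_mul K
    have h2 : (n (K + 1) : ℤ) = gq n K * n K := by exact_mod_cast h1.symm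
    rw [h2]
    ring

theorem mdig_eq_zero (x : ℤ) (K : ℕ) (h : 2 * |x| < n K) : mdig n K x = 0 := by
  unfold mdig
  rw [round_eq_zero_iff]
  have hK : (0:ℝ) < n K := by exact_mod_cast hn.npos K
  have h' : 2 * |(x:ℝ)| < n K := by exact_mod_cast h
  have h1 := abs_lt.mp (show |(x:ℝ)| < n K / 2 by linarith)
  constructor
  · rw [le_div_iff₀ hK]; linarith [h1.1]
  · rw [div_lt_iff₀ hK]; linarith [h1.2]

theorem exists_lt (x : ℤ) : ∃ K, ∀ b, K ≤ b → 2 * |x| < n b := by
  refine ⟨(2 * |x| + 1).toNat, ?_⟩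
  intro b hb
  have h1 : b ≤ n b := hn.strictMono.id_le b
  have h2 : (2 * |x| + 1).toNat ≤ n b := hb.trans h1
  have h3 : 2 * |x| + 1 ≤ (n b : ℤ) := by
    have := Int.toNat_le.mp h2
    exact this
  linarith

/-- A bound for the length of the expansion. -/
noncomputable def klen (n : ℕ → ℕ) (x : ℤ) : ℕ :=
  open Classical in if h : ∃ K, ∀ b, K ≤ b → 2 * |x| < (n b : ℤ) then Nat.find h else 0

theorem klen_spec (x : ℤ) (b : ℕ) (hb : klen n x ≤ b) : 2 * |x| < n b := by
  classical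
  have h := exists_lt hn x
  unfold klen at hb
  rw [dif_pos h] at hb
  exact Nat.find_spec h b hb

/-- The support of the expansion. -/
noncomputable def supp (n : ℕ → ℕ) (x : ℤ) : Finset ℕ := (range (klen n x)).filter (fun b => dig n b x ≠ 0)

theorem dig_eq_zero_of_ge (x : ℤ) (b : ℕ) (hb : klen n x ≤ b) : dig n b x = 0 := by
  unfold dig
  rw [mdig_eq_zero hn x b (klen_spec hn x b hb), mdig_eq_zero hn x (b+1) (klen_spec hn x (b+1) (by omega))]
  simp

theorem mem_supp (x : ℤ) (b : ℕ) : b ∈ supp n x ↔ dig n b x ≠ 0 := by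
  unfold supp
  rw [Finset.mem_filter]
  constructor
  · exact fun h => h.2
  · intro h
    refine ⟨?_, h⟩
    rw [Finset.mem_range]
    by_contra hc
    exact h (dig_eq_zero_of_ge hn x b (by omega))

theorem eq_sum_of_supp_subset (x : ℤ) (hx : (n 0 : ℤ) ∣ x) (P : Finset ℕ) (hP : supp n x ⊆ P) :
    ∑ b ∈ P, dig n b x * n b = x := by
  have h1 : ∑ b ∈ P, dig n b x * n b = ∑ b ∈ supp n x, dig n b x * n b := by
    symm
    apply Finset.sum_subset hP
    intro b _ hb
    rw [mem_supp hn] at hb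
    push Not at hb
    rw [hb, zero_mul]
  have h2 : ∑ b ∈ range (klen n x), dig n b x * n b = ∑ b ∈ supp n x, dig n b x * n b := by
    symm
    apply Finset.sum_subset (Finset.filter_subset _ _)
    intro b _ hb
    have hb' : b ∉ supp n x := hb
    rw [mem_supp hn] at hb'
    push Not at hb'
    rw [hb', zero_mul]
  rw [h1, ← h2, sum_dig hn x hx, mdig_eq_zero hn x _ (klen_spec hn x _ (le_refl _))]
  simp

end

/-! ### Weights -/

theorem sum_wt_le (p : ℕ) (T : Finset ℕ) : ∑ b ∈ T, wt p b ≤ 2 := by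
  have h1 : ∑ b ∈ T, wt p b ≤ ∑ b ∈ range (T.sup id + 1 + p), wt p b := by
    apply Finset.sum_le_sum_of_subset_of_nonneg
    · intro b hb
      rw [Finset.mem_range]
      have : b ≤ T.sup id := Finset.le_sup (f := id) hb
      omega
    · intro b _ _
      exact wt_nonneg p b
  refine h1.trans ?_
  rw [add_comm (T.sup id + 1) p, Finset.sum_range_add]
  have h2 : ∑ b ∈ range p, wt p b = 0 := by
    apply Finset.sum_eq_zero
    intro b hb
    rw [Finset.mem_range] at hb
    unfold wt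
    rw [if_neg (by omega)]
  have h3 : ∀ j, wt p (p + j) = (1/2:ℝ)^j := by
    intro j
    unfold wt
    rw [if_pos (by omega)]
    congr 1
    omega
  rw [h2, zero_add]
  simp only [h3]
  rw [geom_sum_eq (by norm_num)]
  have h4 : (0:ℝ) ≤ (1/2)^(T.sup id + 1) := by positivity
  have h5 : ((1 / 2 : ℝ) ^ (T.sup id + 1) - 1) / (1 / 2 - 1) = 2 - 2 * (1/2)^(T.sup id + 1) := by
    ring
  rw [h5]
  linarith

theorem sum_wt_tail_le (p q : ℕ) (T : Finset ℕ) (hT : ∀ b ∈ T, ¬ (p ≤ b ∧ b ≤ p + q)) :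
    ∑ b ∈ T, wt p b ≤ (1 / 2 : ℝ) ^ q := by
  have h1 : ∑ b ∈ T, wt p b ≤ ∑ b ∈ T, (1/2:ℝ)^(q+1) * wt (p + q + 1) b := by
    apply Finset.sum_le_sum
    intro b hb
    have := hT b hb
    unfold wt
    by_cases h : p ≤ b
    · have h2 : p + q + 1 ≤ b := by omega
      rw [if_pos h, if_pos h2, ← pow_add]
      apply le_of_eq
      congr 1
      omega
    · rw [if_neg h]
      have := wt_nonneg (p + q + 1) b
      unfold wt at this
      positivity
  refine h1.trans ?_
  rw [← Finset.mul_sum]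
  have h2 := sum_wt_le (p + q + 1) T
  have h3 : (0:ℝ) < (1/2)^(q+1) := by positivity
  calc (1/2:ℝ)^(q+1) * ∑ b ∈ T, wt (p + q + 1) b ≤ (1/2)^(q+1) * 2 := by
        apply mul_le_mul_of_nonneg_left h2 h3.le
    _ = (1/2)^q := by rw [pow_succ]; ring

end Pool.Agent.Helper47.Diss
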