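import Mathlib

set_option autoImplicit false

namespace Pool.Agent.Helper47.Diss

open Finset

/-- Greedy colouring of a finite set of vertices of a digraph with out-degrees at most `d`. -/
theorem exists_color_finset {ι : Type*} [DecidableEq ι] (d : ℕ) (N : ι → Finset ι)
    (hN : ∀ x, (N x).card ≤ d) :
    ∀ (m : ℕ) (S : Finset ι), S.card = m →
      ∃ col : ι → Fin (2 * d + 1), ∀ x ∈ S, ∀ y ∈ S, y ∈ N x → y ≠ x → col y ≠ col x := by
  intro m
  induction m with
  | zero =>
    intro S hS
    refine ⟨fun _ => 0, ?_⟩
    intro x hx
    rw [Finset.card_eq_zero] at hS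
    subst hS
    simp at hx
  | succ m ih =>
    intro S hS
    -- pick a vertex of small in-degree
    have hex : ∃ v ∈ S, (S.filter (fun x => v ∈ N x)).card ≤ d := by
      by_contra hcon
      push Not at hcon
      have h1 : ∑ v ∈ S, (S.filter (fun x => v ∈ N x)).card = ∑ x ∈ S, (S.filter (fun v => v ∈ N x)).card := by
        simp only [Finset.card_filter]
        rw [Finset.sum_comm]
      have h2 : ∑ x ∈ S, (S.filter (fun v => v ∈ N x)).card ≤ ∑ x ∈ S, d := by
        apply Finset.sum_le_sum
        intro x _
        refine le_trans (Finset.card_le_card ?_) (hN x)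
        intro v hv
        exact (Finset.mem_filter.mp hv).2
      have h3 : ∑ v ∈ S, (d + 1) ≤ ∑ v ∈ S, (S.filter (fun x => v ∈ N x)).card := by
        apply Finset.sum_le_sum
        intro v hv
        exact hcon v hv
      rw [h1] at h3
      have h4 := le_trans h3 h2
      simp only [Finset.sum_const, smul_eq_mul] at h4
      have : 0 < S.card := by omega
      nlinarith
    obtain ⟨v, hvS, hv⟩ := hex
    obtain ⟨col, hcol⟩ := ih (S.erase v) (by rw [Finset.card_erase_of_mem hvS]; omega)
    -- forbidden colours
    let F : Finset (Fin (2 * d + 1)) :=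
      ((S.filter (fun x => v ∈ N x)).image col) ∪ ((N v).image col)
    have hF : F.card < 2 * d + 1 := by
      have h1 : F.card ≤ ((S.filter (fun x => v ∈ N x)).image col).card + ((N v).image col).card :=
        Finset.card_union_le _ _
      have h2 := Finset.card_image_le (s := (S.filter (fun x => v ∈ N x))) (f := col)
      have h3 := Finset.card_image_le (s := (N v)) (f := col)
      have h4 := hN v
      omega
    have : ∃ a : Fin (2 * d + 1), a ∉ F := by
      by_contra hcon
      push Not at hcon
      have : F = Finset.univ := Finset.eq_univ_iff_forall.mpr hcon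
      rw [this] at hF
      simp at hF
    obtain ⟨a, ha⟩ := this
    refine ⟨Function.update col v a, ?_⟩
    intro x hx y hy hyx hne
    by_cases hxv : x = v
    · subst hxv
      rw [Function.update_of_ne hne, Function.update_self]
      intro h
      apply ha
      rw [← h]
      apply Finset.mem_union_right
      exact Finset.mem_image_of_mem _ hyx
    · by_cases hyv : y = v
      · subst hyv
        rw [Function.update_of_ne hxv, Function.update_self]
        intro h
        apply ha
        rw [h]
        apply Finset.mem_union_left
        exact Finset.mem_image_of_mem _ (Finset.mem_filter.mpr ⟨hx, hyx⟩)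
      · rw [Function.update_of_ne hxv, Function.update_of_ne hyv]
        exact hcol x (Finset.mem_erase.mpr ⟨hxv, hx⟩) y (Finset.mem_erase.mpr ⟨hyv, hy⟩) hyx hne

/-- A digraph with out-degrees at most `d` can be properly coloured with `2 d + 1` colours. -/
theorem exists_color {ι : Type*} (d : ℕ) (N : ι → Finset ι)
    (hN : ∀ x, (N x).card ≤ d) :
    ∃ col : ι → Fin (2 * d + 1), ∀ x y, y ∈ N x → y ≠ x → col y ≠ col x := by
  classical
  choose g hg using fun S : Finset ι => exists_color_finset d N hN S.card S rfl
  obtain ⟨χ, hχ⟩ := Finset.rado_selection (α := ι) (β := fun _ => Fin (2 * d + 1)) g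
  refine ⟨χ, ?_⟩
  intro x y hyx hne
  obtain ⟨t, hst, ht⟩ := hχ {x, y}
  have hx : x ∈ ({x, y} : Finset ι) := by simp
  have hy : y ∈ ({x, y} : Finset ι) := by simp
  rw [ht x hx, ht y hy]
  exact hg t x (hst hx) y (hst hy) hyx hne

end Pool.Agent.Helper47.Diss
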