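import Pool.Agent.Helper47.Diss.Basic

set_option autoImplicit false

namespace Pool.Agent.Helper47.Diss

open Finset

theorem pow_ineq (t w : ℕ) (ht : 1 ≤ t) :
    ((2 * w + 1 : ℕ) : ℝ) ^ t ≤ (4 * t : ℝ) ^ t * 2 ^ w := by
  have ht' : (0:ℝ) < t := by exact_mod_cast ht
  have ht1 : (1:ℝ) ≤ t := by exact_mod_cast ht
  have h1 : ((2 * w + 1 : ℕ) : ℝ) ≤ 4 * t * (1 + w / (2 * t)) := by
    have : (4 * t * (1 + w / (2 * t)) : ℝ) = 4 * t + 2 * w := by
      field_simp
      ring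
    rw [this]
    push_cast
    linarith
  have h2 : (1 + w / (2 * t) : ℝ) ≤ Real.exp (w / (2 * t)) := by
    have := Real.add_one_le_exp (w / (2 * t) : ℝ)
    linarith
  have h3 : (1 + w / (2 * t) : ℝ) ^ t ≤ 2 ^ w := by
    calc (1 + w / (2 * t) : ℝ) ^ t ≤ (Real.exp (w / (2 * t))) ^ t := by
          apply pow_le_pow_left₀ _ h2
          positivity
      _ = (Real.exp (1/2)) ^ w := by
          rw [← Real.exp_nat_mul, ← Real.exp_nat_mul]
          congr 1
          field_simp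
      _ ≤ 2 ^ w := by
          apply pow_le_pow_left₀ (Real.exp_pos _).le
          have h4 : Real.exp (1/2) ^ 2 = Real.exp 1 := by
            rw [← Real.exp_nat_mul]
            norm_num
          have h5 := Real.exp_one_lt_d9
          nlinarith [Real.exp_pos (1/2)]
  calc ((2 * w + 1 : ℕ) : ℝ) ^ t ≤ (4 * t * (1 + w / (2 * t))) ^ t := by
        apply pow_le_pow_left₀ (by positivity) h1
    _ = (4 * t : ℝ) ^ t * (1 + w / (2 * t)) ^ t := by rw [mul_pow]
    _ ≤ _ := mul_le_mul_of_nonneg_left h3 (by positivity)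

theorem card_le_of_dissociated {n : ℕ → ℕ} (hn : Chain n) (s : ℕ) (hs : 1 ≤ s) (D : Finset ℕ)
    (hD : ∀ X Y : Finset ℕ, X ⊆ D → Y ⊆ D → X ≠ Y → X.sum id ≠ Y.sum id)
    (hdvd : ∀ x ∈ D, n 0 ∣ x)
    (P : Finset ℕ) (hP : ∀ x ∈ D, supp n x ⊆ P)
    (hsum : ∀ x ∈ D, ∑ b ∈ P, (dig n b x).natAbs ≤ s) :
    D.card ≤ 16 * s * P.card := by
  classical
  let w : ℕ → ℕ := fun b => ∑ x ∈ D, (dig n b x).natAbs
  let v : Finset ℕ → (b : ℕ) → b ∈ P → ℤ := fun X b _ => ∑ x ∈ X, dig n b x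
  have hinj : Set.InjOn v (D.powerset : Set (Finset ℕ)) := by
    intro X hX Y hY hXY
    have hX' : X ⊆ D := Finset.mem_powerset.mp (by exact_mod_cast hX)
    have hY' : Y ⊆ D := Finset.mem_powerset.mp (by exact_mod_cast hY)
    by_contra hne
    apply hD X Y hX' hY' hne
    have key : ∀ Z : Finset ℕ, Z ⊆ D → ((Z.sum id : ℕ) : ℤ) = ∑ b ∈ P, (∑ x ∈ Z, dig n b x) * n b := by
      intro Z hZ
      have h1 : ((Z.sum id : ℕ) : ℤ) = ∑ x ∈ Z, ∑ b ∈ P, dig n b x * n b := by
        push_cast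
        apply Finset.sum_congr rfl
        intro x hx
        rw [eq_sum_of_supp_subset hn x (by exact_mod_cast hdvd x (hZ hx)) P (hP x (hZ hx))]
        rfl
      rw [h1, Finset.sum_comm]
      apply Finset.sum_congr rfl
      intro b _
      rw [Finset.sum_mul]
    have h2 : ((X.sum id : ℕ) : ℤ) = ((Y.sum id : ℕ) : ℤ) := by
      rw [key X hX', key Y hY']
      apply Finset.sum_congr rfl
      intro b hb
      have := congrFun (congrFun hXY b) hb
      simp only [v] at this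
      rw [this]
    exact_mod_cast h2
  have hcard : D.powerset.card ≤ (P.pi (fun b => Finset.Icc (-(w b : ℤ)) (w b))).card := by
    apply Finset.card_le_card_of_injOn v _ hinj
    intro X hX
    have hX' : X ⊆ D := Finset.mem_powerset.mp (by exact_mod_cast hX)
    rw [Finset.mem_coe, Finset.mem_pi]
    intro b hb
    rw [Finset.mem_Icc, ← abs_le]
    simp only [v, w]
    refine (Finset.abs_sum_le_sum_abs _ _).trans ?_
    push_cast
    exact Finset.sum_le_sum_of_subset_of_nonneg hX' (fun _ _ _ => abs_nonneg _)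
  rw [Finset.card_powerset, Finset.card_pi] at hcard
  have hcard2 : 2 ^ D.card ≤ ∏ b ∈ P, (2 * w b + 1) := by
    refine hcard.trans (le_of_eq ?_)
    apply Finset.prod_congr rfl
    intro b _
    rw [Int.card_Icc]
    omega
  have hw : ∑ b ∈ P, w b ≤ s * D.card := by
    simp only [w]
    rw [Finset.sum_comm]
    calc ∑ x ∈ D, ∑ b ∈ P, (dig n b x).natAbs ≤ ∑ x ∈ D, s := Finset.sum_le_sum hsum
      _ = s * D.card := by simp [mul_comm]
  -- the main estimate
  have hmain : (2:ℝ) ^ (2 * s * D.card) ≤ (8 * s : ℝ) ^ (2 * s * P.card) * 2 ^ (s * D.card) := by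
    have h1 : ((2:ℝ) ^ D.card) ≤ ∏ b ∈ P, ((2 * w b + 1 : ℕ) : ℝ) := by exact_mod_cast hcard2
    calc (2:ℝ) ^ (2 * s * D.card) = ((2:ℝ) ^ D.card) ^ (2 * s) := by rw [← pow_mul]; ring_nf
      _ ≤ (∏ b ∈ P, ((2 * w b + 1 : ℕ) : ℝ)) ^ (2 * s) := pow_le_pow_left₀ (by positivity) h1 _
      _ = ∏ b ∈ P, ((2 * w b + 1 : ℕ) : ℝ) ^ (2 * s) := by rw [Finset.prod_pow]
      _ ≤ ∏ b ∈ P, ((4 * (2 * s : ℕ) : ℝ) ^ (2 * s) * 2 ^ (w b)) := by
          apply Finset.prod_le_prod
          · intro b _; positivity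
          · intro b _
            exact pow_ineq (2 * s) (w b) (by omega)
      _ = (8 * s : ℝ) ^ (2 * s * P.card) * 2 ^ (∑ b ∈ P, w b) := by
          rw [Finset.prod_mul_distrib, Finset.prod_const, Finset.prod_pow_eq_pow_sum, ← pow_mul]
          congr 2
          push_cast
          ring
      _ ≤ _ := by
          apply mul_le_mul_of_nonneg_left _ (by positivity)
          apply pow_le_pow_right₀ (by norm_num) hw
  have h8 : (8 * s : ℝ) ≤ 2 ^ (8 * s) := by
    have : 8 * s < 2 ^ (8 * s) := Nat.lt_two_pow_self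
    exact_mod_cast this.le
  have hmain2 : (2:ℝ) ^ (2 * s * D.card) ≤ 2 ^ (8 * s * (2 * s * P.card) + s * D.card) := by
    refine hmain.trans ?_
    rw [pow_add, pow_mul (2:ℝ) (8 * s)]
    apply mul_le_mul_of_nonneg_right _ (by positivity)
    exact pow_le_pow_left₀ (by positivity) h8 _
  have hmain3 : 2 * s * D.card ≤ 8 * s * (2 * s * P.card) + s * D.card :=
    (pow_le_pow_iff_right₀ (by norm_num : (1:ℝ) < 2)).mp hmain2
  have hmain4 : s * D.card ≤ s * (16 * s * P.card) := by nlinarith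
  exact Nat.le_of_mul_le_mul_left hmain4 (by omega)

end Pool.Agent.Helper47.Diss
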