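import Pool.Agent.Helper47.Diss.Basic
import Pool.Agent.Helper47.Diss.Count
import Pool.Agent.Helper47.Diss.Color

set_option autoImplicit false

namespace Pool.Agent.Helper47.Diss

open Finset

theorem Q_sign {n : ℕ → ℕ} (b : ℕ) (e : ℤ) (he : e = 1 ∨ e = -1) (x : ℤ) : Q n b (e * x) = Q n b x := by
  rcases he with rfl | rfl
  · rw [one_mul]
  · rw [neg_one_mul, Q_neg]

theorem core {ι : Type*} [DecidableEq ι] {n : ℕ → ℕ} (r : ℕ) (a : ι → ℤ)
    (p : ι → Fin r → ℕ) (σ : ι → ℕ)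
    (hQ : ∀ x b, Q n b (a x) ≤ ∑ i, wt (p x i) b)
    (hσ : ∀ x, 1 / 2 ≤ Q n (σ x) (a x))
    (E : Finset ι) (hE : E.Nonempty) (hinj : Set.InjOn σ (E : Set ι))
    (hsep : ∀ x ∈ E, ∀ y ∈ E, y ≠ x → ∀ i, ¬ (p x i ≤ σ y ∧ σ y ≤ p x i + (r + 1)))
    (ε : ι → ℤ) (hε : ∀ x, ε x = 1 ∨ ε x = -1) :
    ∑ x ∈ E, ε x * a x ≠ 0 := by
  intro h0
  -- each element is dominated by the others at its place
  have h1 : ∀ x ∈ E, 1 / 2 ≤ ∑ y ∈ E.erase x, Q n (σ x) (a y) := by
    intro x hx
    have h2 : ε x * a x = - ∑ y ∈ E.erase x, ε y * a y := by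
      rw [← Finset.add_sum_erase E _ hx] at h0
      linarith
    calc (1 / 2 : ℝ) ≤ Q n (σ x) (a x) := hσ x
      _ = Q n (σ x) (ε x * a x) := (Q_sign _ _ (hε x) _).symm
      _ = Q n (σ x) (∑ y ∈ E.erase x, ε y * a y) := by rw [h2, Q_neg]
      _ ≤ ∑ y ∈ E.erase x, Q n (σ x) (ε y * a y) := Q_sum_le _ _ _
      _ = ∑ y ∈ E.erase x, Q n (σ x) (a y) := by
          apply Finset.sum_congr rfl
          intro y _
          exact Q_sign _ _ (hε y) _
  have h2 : (E.card : ℝ) * (1 / 2) ≤ ∑ x ∈ E, ∑ y ∈ E.erase x, Q n (σ x) (a y) := by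
    rw [← nsmul_eq_mul]
    exact Finset.card_nsmul_le_sum _ _ _ h1
  have h3 : ∑ x ∈ E, ∑ y ∈ E.erase x, Q n (σ x) (a y) = ∑ y ∈ E, ∑ x ∈ E.erase y, Q n (σ x) (a y) := by
    rw [Finset.sum_comm' (t' := E) (s' := fun y => E.erase y)]
    intro x y
    simp only [Finset.mem_erase]
    constructor
    · rintro ⟨hx, hne, hy⟩
      exact ⟨⟨hne.symm, hx⟩, hy⟩
    · rintro ⟨⟨hne, hx⟩, hy⟩
      exact ⟨hx, hne.symm, hy⟩
  have h4 : ∀ y ∈ E, ∑ x ∈ E.erase y, Q n (σ x) (a y) ≤ r * (1 / 2 : ℝ) ^ (r + 1) := by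
    intro y hy
    calc ∑ x ∈ E.erase y, Q n (σ x) (a y) ≤ ∑ x ∈ E.erase y, ∑ i, wt (p y i) (σ x) :=
          Finset.sum_le_sum (fun x _ => hQ y (σ x))
      _ = ∑ i : Fin r, ∑ x ∈ E.erase y, wt (p y i) (σ x) := Finset.sum_comm
      _ ≤ ∑ _i : Fin r, (1 / 2 : ℝ) ^ (r + 1) := by
          apply Finset.sum_le_sum
          intro i _
          have h5 : ∑ x ∈ E.erase y, wt (p y i) (σ x) = ∑ b ∈ (E.erase y).image σ, wt (p y i) b := by
            rw [Finset.sum_image]
            intro u hu v hv huv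
            exact hinj (Finset.mem_of_mem_erase hu) (Finset.mem_of_mem_erase hv) huv
          rw [h5]
          apply sum_wt_tail_le
          intro b hb
          obtain ⟨x, hx, rfl⟩ := Finset.mem_image.mp hb
          exact hsep y hy x (Finset.mem_of_mem_erase hx) (Finset.ne_of_mem_erase hx) i
      _ = r * (1 / 2 : ℝ) ^ (r + 1) := by simp
  have h5 : ∑ y ∈ E, ∑ x ∈ E.erase y, Q n (σ x) (a y) ≤ E.card * (r * (1 / 2 : ℝ) ^ (r + 1)) := by
    rw [← nsmul_eq_mul]
    exact Finset.sum_le_card_nsmul _ _ _ h4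
  have h6 : (E.card : ℝ) * (1 / 2) ≤ E.card * (r * (1 / 2 : ℝ) ^ (r + 1)) := by
    rw [h3] at h2
    exact h2.trans h5
  have h7 : (0 : ℝ) < E.card := by exact_mod_cast hE.card_pos
  have h8 : (1 / 2 : ℝ) ≤ r * (1 / 2 : ℝ) ^ (r + 1) := le_of_mul_le_mul_left h6 h7
  have h9 : (r : ℝ) < 2 ^ r := by exact_mod_cast Nat.lt_two_pow_self
  have h10 : (r * (1 / 2 : ℝ) ^ (r + 1)) < 1 / 2 := by
    rw [one_div, inv_pow, pow_succ, mul_inv, ← mul_assoc]
    have : (r : ℝ) * (2 ^ r)⁻¹ < 1 := by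
      rw [← div_eq_mul_inv, div_lt_one (by positivity)]
      exact h9
    linarith
  linarith

theorem main (n : ℕ → ℕ) (hn : Chain n) (r : ℕ) (A : Set ℕ)
    (hA : ∀ a ∈ A, ∃ p : Fin r → ℕ, ∃ s : Fin r → ℤ,
      (∀ i, s i = -1 ∨ s i = 0 ∨ s i = 1) ∧ (a : ℤ) = ∑ i, s i * n (p i))
    (c : ℝ) (hc : 0 < c)
    (hprop : ∀ B : Finset ℕ, (↑B : Set ℕ) ⊆ A →
        ∃ D : Finset ℕ, D ⊆ B ∧
          (∀ X Y : Finset ℕ, X ⊆ D → Y ⊆ D → X ≠ Y → X.sum id ≠ Y.sum id) ∧
          c * (B.card : ℝ) ≤ (D.card : ℝ)) :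
    ∃ F : Fin (⌈64 * (r + 1) / c⌉₊ * (2 * (r * (r + 2)) + 1)) → Set ℕ,
        (∀ i, ∀ X Y : Finset ℕ, (↑X : Set ℕ) ⊆ F i → (↑Y : Set ℕ) ⊆ F i →
          X ≠ Y → X.sum id ≠ Y.sum id) ∧
        A = ⋃ i, F i := by
  classical
  set C : ℕ := ⌈64 * (r + 1) / c⌉₊ with hCdef
  have hC : (64 * (r + 1) / c : ℝ) ≤ C := Nat.le_ceil _
  choose p s hs hrep using hA
  let P' : A → Fin r → ℕ := fun x => p x.1 x.2
  let a' : A → ℤ := fun x => ((x.1 : ℕ) : ℤ)
  -- basic bounds
  have hQ : ∀ (x : A) (b : ℕ), Q n b (a' x) ≤ ∑ i, wt (P' x i) b := by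
    intro x b
    have h1 : a' x = ∑ i, s x.1 x.2 i * n (p x.1 x.2 i) := hrep x.1 x.2
    rw [h1]
    refine (Q_sum_le b _ _).trans ?_
    apply Finset.sum_le_sum
    intro i _
    rcases hs x.1 x.2 i with h | h | h
    · rw [h, Q_sign _ _ (Or.inr rfl)]
      exact Q_term_le hn _ _
    · rw [h, zero_mul, Q_zero]
      exact wt_nonneg _ _
    · rw [h, one_mul]
      exact Q_term_le hn _ _
  have hdvd : ∀ x : A, (n 0) ∣ x.1 := by
    intro x
    have h1 : ((x.1 : ℕ) : ℤ) = ∑ i, s x.1 x.2 i * n (p x.1 x.2 i) := hrep x.1 x.2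
    have h2 : ((n 0 : ℕ) : ℤ) ∣ ((x.1 : ℕ) : ℤ) := by
      rw [h1]
      apply Finset.dvd_sum
      intro i _
      apply Dvd.dvd.mul_left
      exact_mod_cast hn.dvd_of_le (Nat.zero_le _)
    exact_mod_cast h2
  have hdig : ∀ (x : A) (P : Finset ℕ), ∑ b ∈ P, (dig n b (a' x)).natAbs ≤ 4 * (r + 1) := by
    intro x P
    have h1 : ((∑ b ∈ P, (dig n b (a' x)).natAbs : ℕ) : ℝ) ≤ 4 * r := by
      push_cast
      calc ∑ b ∈ P, (((dig n b (a' x)).natAbs : ℕ) : ℝ) = ∑ b ∈ P, |(dig n b (a' x) : ℝ)| := by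
            apply Finset.sum_congr rfl
            intro b _
            rw [Nat.cast_natAbs, Int.cast_abs]
        _ ≤ ∑ b ∈ P, 2 * Q n b (a' x) := Finset.sum_le_sum (fun b _ => abs_dig_le hn b _)
        _ ≤ ∑ b ∈ P, 2 * ∑ i, wt (P' x i) b := by
            apply Finset.sum_le_sum
            intro b _
            have := hQ x b
            linarith
        _ = 2 * ∑ i, ∑ b ∈ P, wt (P' x i) b := by rw [← Finset.mul_sum, Finset.sum_comm]
        _ ≤ 2 * ∑ _i : Fin r, (2:ℝ) := by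
            apply mul_le_mul_of_nonneg_left _ (by norm_num)
            exact Finset.sum_le_sum (fun i _ => sum_wt_le _ _)
        _ = 4 * r := by simp; ring
    have h2 : (∑ b ∈ P, (dig n b (a' x)).natAbs) ≤ 4 * r := by exact_mod_cast h1
    omega
  -- Hall
  let t : A → Finset (ℕ × Fin C) := fun x => supp n (a' x) ×ˢ Finset.univ
  have hHall : ∀ S : Finset A, S.card ≤ (S.biUnion t).card := by
    intro S
    let P : Finset ℕ := S.biUnion (fun x => supp n (a' x))
    have h1 : S.biUnion t = P ×ˢ (Finset.univ : Finset (Fin C)) := by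
      ext ⟨b, j⟩
      simp [t, P]
    rw [h1, Finset.card_product, Finset.card_univ, Fintype.card_fin]
    let B : Finset ℕ := S.map (Function.Embedding.subtype _)
    have hB : (↑B : Set ℕ) ⊆ A := by
      intro x hx
      simp only [B, Finset.coe_map, Set.mem_image] at hx
      obtain ⟨y, _, rfl⟩ := hx
      exact y.2
    obtain ⟨D, hDB, hDd, hDc⟩ := hprop B hB
    have hD1 : ∀ x ∈ D, ∃ y ∈ S, y.1 = x := by
      intro x hx
      have := hDB hx
      simp only [B, Finset.mem_map] at this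
      obtain ⟨y, hy, rfl⟩ := this
      exact ⟨y, hy, rfl⟩
    have hcnt := card_le_of_dissociated hn (4 * (r + 1)) (by omega) D hDd
      (by
        intro x hx
        obtain ⟨y, _, rfl⟩ := hD1 x hx
        exact hdvd y) P
      (by
        intro x hx
        obtain ⟨y, hy, rfl⟩ := hD1 x hx
        exact Finset.subset_biUnion_of_mem (fun x : A => supp n (a' x)) hy)
      (by
        intro x hx
        obtain ⟨y, hy, rfl⟩ := hD1 x hx
        exact hdig y P)
    have hBc : B.card = S.card := Finset.card_map _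
    rw [hBc] at hDc
    have h2 : (D.card : ℝ) ≤ 64 * (r + 1) * P.card := by
      have h3 : ((D.card : ℕ) : ℝ) ≤ ((16 * (4 * (r + 1)) * P.card : ℕ) : ℝ) := by exact_mod_cast hcnt
      refine h3.trans (le_of_eq ?_)
      push_cast
      ring
    have h4 : (S.card : ℝ) ≤ P.card * C := by
      have h5 : c * S.card ≤ 64 * (r + 1) * P.card := hDc.trans h2
      have h6 : (S.card : ℝ) ≤ (64 * (r + 1) / c) * P.card := by
        rw [div_mul_eq_mul_div, le_div_iff₀ hc]
        linarith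
      refine h6.trans ?_
      rw [mul_comm (P.card : ℝ)]
      exact mul_le_mul_of_nonneg_right hC (Nat.cast_nonneg _)
    exact_mod_cast h4
  obtain ⟨f, hfinj, hft⟩ := (Finset.all_card_le_biUnion_card_iff_exists_injective t).mp hHall
  let σ : A → ℕ := fun x => (f x).1
  have hσ : ∀ x : A, 1 / 2 ≤ Q n (σ x) (a' x) := by
    intro x
    apply half_le_Q hn
    rw [← mem_supp hn]
    have := hft x
    simp only [t, Finset.mem_product] at this
    exact this.1
  -- conflicts
  let W : A → Finset ℕ := fun x => Finset.univ.biUnion (fun i => Finset.Icc (P' x i) (P' x i + (r + 1)))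
  have hW : ∀ x, (W x).card ≤ r * (r + 2) := by
    intro x
    refine Finset.card_biUnion_le.trans ?_
    have : ∀ i : Fin r, (Finset.Icc (P' x i) (P' x i + (r + 1))).card = r + 2 := by
      intro i
      rw [Nat.card_Icc]
      omega
    rw [Finset.sum_congr rfl (fun i _ => this i)]
    simp
  let N : A → Finset A := fun x =>
    (W x ×ˢ ({(f x).2} : Finset (Fin C))).preimage f hfinj.injOn
  have hN : ∀ x, (N x).card ≤ r * (r + 2) := by
    intro x
    have h1 : (N x).card ≤ (W x ×ˢ ({(f x).2} : Finset (Fin C))).card := by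
      rw [Finset.card_preimage]
      exact Finset.card_filter_le _ _
    refine h1.trans ?_
    rw [Finset.card_product, Finset.card_singleton, mul_one]
    exact hW x
  obtain ⟨col, hcol⟩ := exists_color (r * (r + 2)) N hN
  refine ⟨fun j => {a | ∃ h : a ∈ A, finProdFinEquiv ((f ⟨a, h⟩).2, col ⟨a, h⟩) = j}, ?_, ?_⟩
  · intro j X Y hX hY hXY hsum
    have hXA : ∀ x ∈ X, x ∈ A := fun x hx => (hX (Finset.mem_coe.mpr hx)).1
    have hYA : ∀ x ∈ Y, x ∈ A := fun x hx => (hY (Finset.mem_coe.mpr hx)).1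
    let X' : Finset A := X.subtype (· ∈ A)
    let Y' : Finset A := Y.subtype (· ∈ A)
    have hX'm : ∀ x : A, x ∈ X' ↔ x.1 ∈ X := fun x => Finset.mem_subtype
    have hY'm : ∀ x : A, x ∈ Y' ↔ x.1 ∈ Y := fun x => Finset.mem_subtype
    have hX'Y' : X' ≠ Y' := by
      intro h
      apply hXY
      ext x
      constructor
      · intro hx
        have : (⟨x, hXA x hx⟩ : A) ∈ X' := (hX'm _).mpr hx
        rw [h, hY'm] at this
        exact this
      · intro hx
        have : (⟨x, hYA x hx⟩ : A) ∈ Y' := (hY'm _).mpr hx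
        rw [← h, hX'm] at this
        exact this
    have hsX : ∑ x ∈ X', a' x = ((X.sum id : ℕ) : ℤ) := by
      have : X.sum id = ∑ x ∈ X', x.1 := by
        exact (Finset.sum_subtype_of_mem (p := (· ∈ A)) (fun x => x) hXA).symm
      rw [this]
      push_cast
      rfl
    have hsY : ∑ x ∈ Y', a' x = ((Y.sum id : ℕ) : ℤ) := by
      have : Y.sum id = ∑ x ∈ Y', x.1 := by
        exact (Finset.sum_subtype_of_mem (p := (· ∈ A)) (fun x => x) hYA).symm
      rw [this]
      push_cast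
      rfl
    have hs' : ∑ x ∈ X', a' x = ∑ x ∈ Y', a' x := by rw [hsX, hsY, hsum]
    let E : Finset A := symmDiff X' Y'
    have hE : E.Nonempty := by
      rw [Finset.nonempty_iff_ne_empty]
      intro h
      apply hX'Y'
      have : symmDiff X' Y' = ⊥ := h
      exact symmDiff_eq_bot.mp this
    let ε : A → ℤ := fun x => if x ∈ X' then 1 else -1
    have hE0 : ∑ x ∈ E, ε x * a' x = 0 := by
      have h1 : E = (X' \ Y') ∪ (Y' \ X') := rfl
      rw [h1, Finset.sum_union disjoint_sdiff_sdiff]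
      have h2 : ∑ x ∈ X' \ Y', ε x * a' x = ∑ x ∈ X' \ Y', a' x := by
        apply Finset.sum_congr rfl
        intro x hx
        have : x ∈ X' := (Finset.mem_sdiff.mp hx).1
        simp [ε, this]
      have h3 : ∑ x ∈ Y' \ X', ε x * a' x = - ∑ x ∈ Y' \ X', a' x := by
        rw [← Finset.sum_neg_distrib]
        apply Finset.sum_congr rfl
        intro x hx
        have : x ∉ X' := (Finset.mem_sdiff.mp hx).2
        simp [ε, this]
      rw [h2, h3]
      have h4 := Finset.sum_inter_add_sum_sdiff X' Y' a'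
      have h5 := Finset.sum_inter_add_sum_sdiff Y' X' a'
      rw [Finset.inter_comm] at h5
      linarith
    have hEF : ∀ x ∈ E, finProdFinEquiv ((f x).2, col x) = j := by
      intro x hx
      have h1 : x ∈ X' ∨ x ∈ Y' := by
        rcases Finset.mem_symmDiff.mp hx with h | h
        · exact Or.inl h.1
        · exact Or.inr h.1
      rcases h1 with h | h
      · exact (hX (Finset.mem_coe.mpr ((hX'm x).mp h))).2
      · exact (hY (Finset.mem_coe.mpr ((hY'm x).mp h))).2
    have hEF2 : ∀ x ∈ E, ∀ y ∈ E, (f x).2 = (f y).2 ∧ col x = col y := by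
      intro x hx y hy
      have h1 := (hEF x hx).trans (hEF y hy).symm
      have h2 := finProdFinEquiv.injective h1
      exact ⟨congrArg Prod.fst h2, congrArg Prod.snd h2⟩
    refine core r a' P' σ hQ hσ E hE ?_ ?_ ε ?_ hE0
    · intro x hx y hy hxy
      apply hfinj
      exact Prod.ext hxy (hEF2 x hx y hy).1
    · intro x hx y hy hne i hcon
      have h1 : y ∈ N x := by
        simp only [N, Finset.mem_preimage, Finset.mem_product, Finset.mem_singleton]
        refine ⟨?_, (hEF2 y hy x hx).1⟩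
        simp only [W, Finset.mem_biUnion, Finset.mem_univ, true_and]
        exact ⟨i, Finset.mem_Icc.mpr hcon⟩
      exact hcol x y h1 hne (hEF2 y hy x hx).2
    · intro x
      by_cases h : x ∈ X'
      · left; simp [ε, h]
      · right; simp [ε, h]
  · ext a
    simp only [Set.mem_iUnion]
    constructor
    · intro h
      exact ⟨_, h, rfl⟩
    · rintro ⟨j, h, _⟩
      exact h

end Pool.Agent.Helper47.Diss
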